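import Pool.Agent.H41.GM.Stm

/-!
# Project GM, module ORD: the order of the renewal recursion
-/

set_option autoImplicit false

namespace Pool.Agent.H31.GM

open Filter Topology Pool.Agent.H41.GM

lemma one_lt_add (n : ℕ) : (1:ℝ) < (n:ℝ) + 2 := by
  have := Nat.cast_nonneg (α := ℝ) n
  linarith

lemma lg_pos (n : ℕ) : 0 < Real.log ((n:ℝ) + 2) := Real.log_pos (one_lt_add n)

lemma sc_pos (n : ℕ) : 0 < sc n := pow_pos (lg_pos n) 4

lemma sc_mono {m n : ℕ} (h : m ≤ n) : sc m ≤ sc n := by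
  unfold sc
  have h1 : (m:ℝ) ≤ n := by exact_mod_cast h
  have h2 := one_lt_add m
  exact pow_le_pow_left₀ (lg_pos m).le (Real.log_le_log (by linarith) (by linarith)) 4

lemma sc_le (n : ℕ) : sc n ≤ 4096 * Real.sqrt ((n:ℝ) + 2) := by
  unfold sc
  have h0 : (0:ℝ) ≤ (n:ℝ) + 2 := by positivity
  have h1 := Real.log_le_rpow_div h0 (show (0:ℝ) < 1 / 8 by norm_num)
  have h2 : Real.log ((n:ℝ) + 2) ≤ 8 * ((n:ℝ) + 2) ^ (1 / 8 : ℝ) := by
    refine h1.trans (le_of_eq ?_)
    ring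
  refine (pow_le_pow_left₀ (lg_pos n).le h2 4).trans (le_of_eq ?_)
  rw [mul_pow, ← Real.rpow_natCast (((n:ℝ) + 2) ^ (1 / 8 : ℝ)) 4, ← Real.rpow_mul h0,
    Real.sqrt_eq_rpow]
  norm_num

/-- `sc` at the half -/
lemma sc_half (J : ℕ) : sc J ≤ 16 * sc (J / 2) := by
  unfold sc
  have h1 : J ≤ 2 * (J / 2) + 1 := by omega
  have h2 : (J:ℝ) ≤ 2 * ((J / 2 : ℕ) : ℝ) + 1 := by exact_mod_cast h1
  set i : ℝ := ((J / 2 : ℕ) : ℝ) with hi
  have hJ : (0:ℝ) ≤ J := Nat.cast_nonneg J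
  have hi0 : 0 ≤ i := Nat.cast_nonneg _
  have h3 : (J:ℝ) + 2 ≤ (i + 2) ^ 2 := by nlinarith
  have h4 : Real.log ((J:ℝ) + 2) ≤ 2 * Real.log (i + 2) := by
    have := Real.log_le_log (by linarith) h3
    rw [Real.log_pow] at this
    exact_mod_cast this
  refine (pow_le_pow_left₀ (lg_pos J).le h4 4).trans (le_of_eq ?_)
  ring

section

variable {x : ℕ → ℝ} {q : ℕ → ℕ}

lemma q_mono (hq : ∀ j, q (j + 1) = q j + 1 + ⌊x j * sc (q j)⌋₊) : Monotone q :=
  monotone_nat_of_le_succ fun j => by rw [hq j]; omega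

lemma le_q (hq : ∀ j, q (j + 1) = q j + 1 + ⌊x j * sc (q j)⌋₊) (j : ℕ) : j ≤ q j := by
  induction j with
  | zero => omega
  | succ j ih => rw [hq j]; omega

lemma upper (hx : ∀ i, 0 ≤ x i) (hq : ∀ j, q (j + 1) = q j + 1 + ⌊x j * sc (q j)⌋₊) (J j : ℕ)
    (hj : j ≤ J) : (q j : ℝ) ≤ q 0 + j + sc (q J) * ∑ i ∈ Finset.range j, x i := by
  induction j with
  | zero => simp
  | succ j ih =>
    have h1 := ih (by omega)
    have h2 : (q (j + 1) : ℝ) = q j + 1 + (⌊x j * sc (q j)⌋₊ : ℝ) := by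
      rw [hq j]
      push_cast
      ring
    have h3 := Nat.floor_le (mul_nonneg (hx j) (sc_pos (q j)).le)
    have h4 : x j * sc (q j) ≤ sc (q J) * x j := by
      rw [mul_comm]
      exact mul_le_mul_of_nonneg_right (sc_mono (q_mono hq (by omega))) (hx j)
    rw [Finset.sum_range_succ, mul_add, h2]
    push_cast
    linarith

lemma lower (hx : ∀ i, 0 ≤ x i) (hq : ∀ j, q (j + 1) = q j + 1 + ⌊x j * sc (q j)⌋₊) (i m : ℕ) :
    sc (q i) * (∑ k ∈ Finset.range (i + m), x k - ∑ k ∈ Finset.range i, x k) ≤ q (i + m) := by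
  induction m with
  | zero => simp
  | succ m ih =>
    have h2 : (q (i + (m + 1)) : ℝ) = q (i + m) + 1 + (⌊x (i + m) * sc (q (i + m))⌋₊ : ℝ) := by
      rw [← add_assoc, hq (i + m)]
      push_cast
      ring
    have h3 := Nat.lt_floor_add_one (x (i + m) * sc (q (i + m)))
    have h4 : sc (q i) * x (i + m) ≤ x (i + m) * sc (q (i + m)) := by
      rw [mul_comm]
      exact mul_le_mul_of_nonneg_left (sc_mono (q_mono hq (by omega))) (hx _)
    rw [← add_assoc i m 1, Finset.sum_range_succ, add_assoc i m 1, h2]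
    have e : sc (q i) * (∑ k ∈ Finset.range (i + m), x k + x (i + m) - ∑ k ∈ Finset.range i, x k) =
        sc (q i) * (∑ k ∈ Finset.range (i + m), x k - ∑ k ∈ Finset.range i, x k) +
          sc (q i) * x (i + m) := by ring
    rw [e]
    linarith

end

/-- ORD -/
theorem ord : S_ORD := by
  intro x μ q hx hμ hlim hq
  -- the averages
  have hav : ∀ᶠ n : ℕ in atTop, 1 ≤ n ∧ 7 / 8 * μ * n ≤ ∑ i ∈ Finset.range n, x i ∧
      ∑ i ∈ Finset.range n, x i ≤ 9 / 8 * μ * n := by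
    filter_upwards [hlim.eventually_const_lt (show 7 / 8 * μ < μ by linarith),
      hlim.eventually_lt_const (show μ < 9 / 8 * μ by linarith), eventually_ge_atTop 1] with n h1 h2 h3
    have hn : (0:ℝ) < n := by exact_mod_cast h3
    rw [lt_div_iff₀ hn] at h1
    rw [div_lt_iff₀ hn] at h2
    exact ⟨h3, h1.le, h2.le⟩
  obtain ⟨N, hN⟩ := eventually_atTop.1 hav
  set c0 : ℝ := sc 0 with hc0
  have hc0p : 0 < c0 := sc_pos 0
  set C₁ : ℝ := ((q 0 : ℝ) + 1) / c0 + 2 * μ with hC₁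
  have hC₁p : 0 < C₁ := by positivity
  set C₂ : ℝ := 4096 * C₁ + 2 with hC₂
  have hC₂p : 0 < C₂ := by positivity
  refine ⟨128 / μ + 256 * C₁, by positivity, ?_⟩
  filter_upwards [eventually_ge_atTop (2 * N + 2), eventually_ge_atTop ⌈C₂⌉₊] with J hJ hJC
  have hJ1 : 1 ≤ J := by omega
  have hJ1' : (1:ℝ) ≤ J := by exact_mod_cast hJ1
  have hJC' : C₂ ≤ J := (Nat.le_ceil _).trans (by exact_mod_cast hJC)
  have hscJ : 0 < sc J := sc_pos J
  have hq0 : (0:ℝ) ≤ q J := Nat.cast_nonneg _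
  -- upper bound
  have hup : (q J : ℝ) ≤ 256 * C₁ * (J * sc J) := by
    have h1 := upper hx hq J J le_rfl
    obtain ⟨-, -, h2⟩ := hN J (by omega)
    have hs : c0 ≤ sc (q J) := sc_mono (Nat.zero_le _)
    have hsp : 0 < sc (q J) := sc_pos _
    have h3 : (q J : ℝ) ≤ C₁ * J * sc (q J) := by
      have h4 : sc (q J) * ∑ i ∈ Finset.range J, x i ≤ sc (q J) * (2 * μ * J) :=
        mul_le_mul_of_nonneg_left (by nlinarith) hsp.le
      have h5 : (q 0 : ℝ) + J ≤ ((q 0 : ℝ) + 1) / c0 * J * sc (q J) := by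
        have h6 : (1:ℝ) ≤ sc (q J) / c0 := (one_le_div hc0p).2 hs
        have h7 : (q 0 : ℝ) + J ≤ ((q 0 : ℝ) + 1) * J := by
          have : (0:ℝ) ≤ q 0 := Nat.cast_nonneg _
          nlinarith
        calc (q 0 : ℝ) + J ≤ ((q 0 : ℝ) + 1) * J := h7
          _ ≤ ((q 0 : ℝ) + 1) * J * (sc (q J) / c0) := le_mul_of_one_le_right (by positivity) h6
          _ = _ := by ring
      have e : C₁ * J * sc (q J) = ((q 0 : ℝ) + 1) / c0 * J * sc (q J) + sc (q J) * (2 * μ * J) := by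
        rw [hC₁]; ring
      rw [e]
      linarith
    have h4 := sc_le (q J)
    set y : ℝ := Real.sqrt ((q J : ℝ) + 2) with hy
    have hyy : y * y = (q J : ℝ) + 2 := Real.mul_self_sqrt (by positivity)
    have hy1 : 1 ≤ y := by
      rw [hy, Real.one_le_sqrt]
      linarith
    have h5 : y * y ≤ C₂ * J * y := by
      have h6 : C₁ * J * sc (q J) ≤ C₁ * J * (4096 * y) :=
        mul_le_mul_of_nonneg_left h4 (by positivity)
      have h7 : (2:ℝ) ≤ 2 * J * y := by nlinarith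
      rw [hyy, hC₂]
      linarith
    have h6 : y ≤ C₂ * J := le_of_mul_le_mul_right h5 (by linarith)
    have h7 : (q J : ℝ) + 2 ≤ ((J : ℝ) + 2) ^ 4 := by
      rw [← hyy]
      have h8 : C₂ * J ≤ ((J : ℝ) + 2) ^ 2 := by nlinarith
      have h9 : y ≤ ((J : ℝ) + 2) ^ 2 := h6.trans h8
      calc y * y ≤ ((J : ℝ) + 2) ^ 2 * ((J : ℝ) + 2) ^ 2 :=
            mul_le_mul h9 h9 (by linarith) (by positivity)
        _ = _ := by ring
    have h8 : sc (q J) ≤ 256 * sc J := by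
      unfold sc
      have h9 := Real.log_le_log (show (0:ℝ) < (q J : ℝ) + 2 by positivity) h7
      rw [Real.log_pow] at h9
      have h10 : Real.log ((q J : ℝ) + 2) ≤ 4 * Real.log ((J:ℝ) + 2) := by exact_mod_cast h9
      refine (pow_le_pow_left₀ (lg_pos _).le h10 4).trans (le_of_eq ?_)
      ring
    calc (q J : ℝ) ≤ C₁ * J * sc (q J) := h3
      _ ≤ C₁ * J * (256 * sc J) := mul_le_mul_of_nonneg_left h8 (by positivity)
      _ = _ := by ring
  -- lower bound
  have hlo : (J : ℝ) * sc J ≤ 128 / μ * q J := by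
    set i : ℕ := J / 2 with hi
    have hiN : N ≤ i := by omega
    obtain ⟨hi1, -, h1⟩ := hN i hiN
    obtain ⟨-, h2, -⟩ := hN (i + i) (by omega)
    have h3 := lower hx hq i i
    have hi0 : (1:ℝ) ≤ i := by exact_mod_cast hi1
    push_cast at h2
    have h4 : μ / 2 * i ≤ ∑ k ∈ Finset.range (i + i), x k - ∑ k ∈ Finset.range i, x k := by
      have : 0 < μ * i := by positivity
      linarith
    have h5 : sc i ≤ sc (q i) := sc_mono (le_q hq i)
    have h6 : sc i * (μ / 2 * i) ≤ q (i + i) := by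
      refine le_trans ?_ h3
      exact mul_le_mul h5 h4 (by positivity) (sc_pos _).le
    have h7 : (q (i + i) : ℝ) ≤ q J := by
      have : q (i + i) ≤ q J := q_mono hq (by omega)
      exact_mod_cast this
    have h8 : sc J ≤ 16 * sc i := sc_half J
    have h9 : (J : ℝ) ≤ 4 * i := by
      have : J ≤ 4 * i := by omega
      exact_mod_cast this
    have h10 : (J : ℝ) * sc J ≤ (4 * i) * (16 * sc i) :=
      mul_le_mul h9 h8 hscJ.le (by positivity)
    have h11 : (4 * (i:ℝ)) * (16 * sc i) = 128 / μ * (sc i * (μ / 2 * i)) := by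
      field_simp
      ring
    rw [h11] at h10
    exact h10.trans (mul_le_mul_of_nonneg_left (h6.trans h7) (by positivity))
  constructor
  · refine hlo.trans ?_
    have : 0 ≤ 256 * C₁ * (q J : ℝ) := by positivity
    linarith
  · refine hup.trans ?_
    have : 0 ≤ 128 / μ * ((J:ℝ) * sc J) := by positivity
    linarith

end Pool.Agent.H31.GM
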